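import Mathlib
import Pool.Agent.Y198.Bat.Main

/-!
# A smooth weak Fano variety with exponentially many components of rational curves

The definitions (cone, anticanonical multidegree, smooth weak Fano complete intersection in a
product of projective lines, space of morphisms with its Zariski topology, number of irreducible
components of bounded degree) are in `Pool.Agent.Y198.Bat.Defs`.

The variety is the complete intersection of dimension four in a product of six projective lines
with coordinates `x, y, t, z, s, w` given by
`s0 A0 + s1 A1 = 0` of multidegree `(1,1,1,1,1,0)` and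
`w0 s0 (x0 - b x1) = w1 s1 (x0 - b' x1)` of multidegree `(1,0,0,0,1,1)`,
where `A0 = (t0 X0 + t1 X1) z0 + t0 (X0 + X2) z1`, `A1 = (t0 X1 - t1 X2) z0 + t1 (X0 - X2) z1`,
`X0 = x1 y1`, `X1 = x0 y1 + x1 y0`, `X2 = x0 y0`, and `b, b'` are very general.
Its anticanonical bundle is `O(0,1,1,1,0,1)`.
-/

set_option autoImplicit false

namespace Pool.Agent.Results.MP_9df269_ag.ExponentiallyMany

open Pool.Agent.Y198.Bat

/-- There is a smooth weak Fano complete intersection `X` of dimension four in a product of six
projective lines such that the number of irreducible components of `Mor(ℙ¹, X)` of degree at most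
`d` with respect to `O(1,...,1)` is at least `2 ^ ⌊d / 50⌋` for all `d ≥ 513`. In particular, for
every polynomial `P` there is a `d` for which this number is larger than `P d`. -/
theorem result : ∃ (F : Fin 2 → MvPolynomial (Fin 6 × Fin 2) ℂ) (D : Fin 2 → Fin 6 → ℕ),
    IsSmoothWeakFano F D ∧
    (∀ d : ℕ, 513 ≤ d → ((2 ^ (d / 50) : ℕ) : ℕ∞) ≤ numComponents F d) ∧
    ∀ P : Polynomial ℝ, ∃ d N : ℕ, P.eval (d : ℝ) < N ∧ (N : ℕ∞) ≤ numComponents F d :=
  main

end Pool.Agent.Results.MP_9df269_ag.ExponentiallyMany
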